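import Pool.Agent.Y990.OA.Stm
import Pool.Agent.Y448.CB2.Ctc

/-!
Project OA: two distinct clusters touching the frame are in contact with reasonable probability
(adapted from Pool/Agent/Y448/CB2/Ctc.lean).
-/

set_option autoImplicit false

open MeasureTheory Set

namespace Pool.Agent.Y70.OA

open Pool.Agent.W783.PC (pm DepOn Inc)
open Pool.Agent.Y990.CB
open Pool.Agent.Y990.OA
open Pool.Agent.Y448.CB2

noncomputable section

variable {d : ℕ} {M : Mod d}

/-- the event that the cluster of `y` meets `F` after closing -/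
def FB (B A F : Set (Z d)) (y : Z d) : Set (M.ι → Bool) :=
  {ω | ∃ z ∈ F, z ∈ cl M (wA M B A ω) B y}

theorem FB_dep (B A F : Set (Z d)) (y : Z d) :
    DepOn (FB (M := M) B A F y) (In M B \ SA M B A) := by
  intro ω ω' h
  unfold FB cl
  simp only [mem_ofPred_eq]
  rw [graph_congr (wA_congr h)]

theorem FB_inc (B A F : Set (Z d)) (y : Z d) : Inc (FB (M := M) B A F y) := by
  rintro ω ω' h ⟨z, hz, h1⟩
  exact ⟨z, hz, cl_mono (wA_mono h) (Subset.refl _) y h1⟩

theorem ctc2 : S_ctc2 := by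
  classical
  intro d M p L D x y hN hQ hD hx hy hxF
  obtain ⟨B, hB⟩ : ∃ B, B = Bo (0 : Z d) L := ⟨_, rfl⟩
  have hBfin : B.Finite := by rw [hB]; exact Bo_finite 0 L
  have hDB : D ⊆ B := by rw [hB]; exact hD
  have hxB : x ∈ B := hDB hx
  have hyB : y ∈ B := hDB hy
  -- the possible clusters
  obtain ⟨T, hT⟩ : ∃ T : Finset (Finset (Z d)),
      T = (Bf (0 : Z d) L).powerset.filter
        (fun A => (∃ z ∈ A, z ∈ Fr (0 : Z d) L) ∧ y ∉ A ∧ x ∈ A) := ⟨_, rfl⟩
  have hTm : ∀ A ∈ T, (A : Set (Z d)) ⊆ B ∧ (∃ z ∈ A, z ∈ Fr (0 : Z d) L) ∧ y ∉ A ∧ x ∈ A := by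
    intro A hA
    rw [hT, Finset.mem_filter, Finset.mem_powerset] at hA
    refine ⟨?_, hA.2⟩
    rw [hB, ← coe_Bf]
    exact_mod_cast hA.1
  have hcard2 : ∀ A : Finset (Z d), (∃ z ∈ A, z ∈ Fr (0 : Z d) L) → x ∈ A →
      2 ≤ (A : Set (Z d)).ncard := by
    rintro A ⟨z, hz, hzF⟩ hxA
    rw [Set.ncard_coe_finset]
    exact Finset.one_lt_card.2 ⟨x, hxA, z, hz, fun h => hxF (by rw [h]; exact hzF)⟩
  let E : Finset (Z d) → Set (M.ι → Bool) := fun A => {ω | cl M ω B x = (A : Set (Z d))}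
  have hdE : ∀ A ∈ T, DepOn (E A) (SA M B A) := fun A _ => cl_dep B A x
  have hInfin : (In M B).Finite := In_fin M hBfin
  have hmeas : ∀ (S : Set (M.ι → Bool)) (W : Set M.ι), W ⊆ In M B → DepOn S W →
      MeasurableSet S := by
    intro S W hW hS
    have h1 : DepOn S (hInfin.toFinset : Set M.ι) := by
      rw [hInfin.coe_toFinset]; exact dep_mono hS hW
    exact Pool.Agent.W45.PC.s_depmeas _ _ _ h1
  have hmE : ∀ A ∈ T, MeasurableSet (E A) := fun A hA =>
    hmeas _ _ (SA_sub (hTm A hA).1) (hdE A hA)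
  have hmF : ∀ A : Finset (Z d), MeasurableSet (FB (M := M) B A (Fr 0 L) y) := fun A =>
    hmeas _ _ Set.sdiff_subset (FB_dep B A (Fr 0 L) y)
  have hmK : ∀ A : Finset (Z d), MeasurableSet (KA (M := M) B A D y) := fun A =>
    hmeas _ _ Set.sdiff_subset (KA_dep B A D y)
  have hdisj : ∀ A ∈ T, ∀ A' ∈ T, A ≠ A' → Disjoint (E A) (E A') := by
    intro A _ A' _ hne
    rw [Set.disjoint_left]
    intro ω h1 h2
    apply hne
    have h3 : cl M ω B x = (A : Set (Z d)) := h1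
    have h4 : cl M ω B x = (A' : Set (Z d)) := h2
    rw [h3] at h4
    exact_mod_cast h4
  -- the event `Ev` on the pieces
  have hEv : ∀ ω, ω ∈ Ea M L x y → ∃ A ∈ T, ω ∈ E A ∧ ω ∈ FB (M := M) B A (Fr 0 L) y := by
    intro ω hω
    obtain ⟨⟨z, hzF, hz⟩, ⟨v, hvF, hv⟩, h3⟩ := hω
    rw [← hB] at hz hv h3
    have hfin : (cl M ω B x).Finite := hBfin.subset (cl_subset hxB)
    have hc : (hfin.toFinset : Set (Z d)) = cl M ω B x := hfin.coe_toFinset
    have hmem : ∃ z ∈ hfin.toFinset, z ∈ Fr (0 : Z d) L := by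
      refine ⟨z, ?_, hzF⟩
      rw [hfin.mem_toFinset]
      exact hz
    have hxm : x ∈ hfin.toFinset := by
      rw [hfin.mem_toFinset]
      exact SimpleGraph.Reachable.refl _
    refine ⟨hfin.toFinset, ?_, hc.symm, ?_⟩
    · rw [hT, Finset.mem_filter, Finset.mem_powerset]
      refine ⟨?_, hmem, ?_, hxm⟩
      · intro z hz
        rw [mem_Bf, ← hB]
        rw [hfin.mem_toFinset] at hz
        exact cl_subset hxB hz
      · rw [hfin.mem_toFinset]
        exact h3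
    · show ∃ z ∈ Fr (0 : Z d) L, z ∈ cl M (wA M B hfin.toFinset ω) B y
      have h2 := hcard2 _ hmem hxm
      rw [hc] at h2 ⊢
      rw [← cl_eq_wA hQ (x := x) rfl h2 h3]
      exact ⟨v, hvF, hv⟩
  have hEvB : ∀ A ∈ T, ∀ ω, ω ∈ E A → ω ∈ FB (M := M) B A (Fr 0 L) y → ω ∈ Ea M L x y := by
    intro A hA ω h1 h2
    have h1' : cl M ω B x = (A : Set (Z d)) := h1
    obtain ⟨h3, h4, h5, hxA⟩ := hTm A hA
    obtain ⟨z, hz, hzF⟩ := h4
    refine ⟨⟨z, hzF, ?_⟩, ?_, ?_⟩
    · rw [← hB]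
      show z ∈ cl M ω B x
      rw [h1']
      exact_mod_cast hz
    · obtain ⟨v, hvF, hv⟩ := h2
      refine ⟨v, hvF, ?_⟩
      rw [← hB]
      show v ∈ cl M ω B y
      rw [cl_eq_wA hQ h1' (hcard2 A ⟨z, hz, hzF⟩ hxA) (by exact_mod_cast h5)]
      exact hv
    · rw [← hB, h1']
      exact_mod_cast h5
  have hKt : ∀ A ∈ T, ∀ ω, ω ∈ E A → ω ∈ KA (M := M) B A D y → ω ∈ Kt M L D x y := by
    rintro A hA ω h1 ⟨a, ha, b, hb, a', ha', b', hb', h2, h3, h4, h5⟩
    have h1' : cl M ω B x = (A : Set (Z d)) := h1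
    rw [hB] at h1' h5 hb'
    refine ⟨a, ha, b, hb, a', ?_, b', hb', h2, h3, h4, ?_, ?_⟩
    · rw [← hB]
      exact (hTm A hA).1 ha'
    · exact cl_mono (fun c hc => wA_le hc) (Subset.refl _) y h5
    · rw [h1']; exact ha'
  -- the estimate of one piece
  have hpiece : ∀ A ∈ T, (mu M p).real (E A ∩ FB (M := M) B A (Fr 0 L) y) * (mu M p).real (Cn M D x y) ≤
      (mu M p).real (E A ∩ (FB (M := M) B A (Fr 0 L) y ∩ KA (M := M) B A D y)) := by
    intro A hA
    obtain ⟨h3, h4, h5, hxA⟩ := hTm A hA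
    have hds : Disjoint (SA M B A) (In M B \ SA M B A) := Set.disjoint_sdiff_right
    have dFK : DepOn (FB (M := M) B A (Fr 0 L) y ∩ KA (M := M) B A D y) (In M B \ SA M B A) := by
      intro ω ω' h
      exact and_congr (FB_dep B A (Fr 0 L) y ω ω' h) (KA_dep B A D y ω ω' h)
    have i1 : (mu M p).real (E A ∩ FB (M := M) B A (Fr 0 L) y) =
        (mu M p).real (E A) * (mu M p).real (FB (M := M) B A (Fr 0 L) y) := by
      unfold Measure.real mu
      rw [Pool.Agent.W45.PC.s_indep M.ι (fun _ => p) _ _ _ _ (hdE A hA) (FB_dep B A (Fr 0 L) y) hds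
        (hmE A hA) (hmF A), ENNReal.toReal_mul]
    have i2 : (mu M p).real (E A ∩ (FB (M := M) B A (Fr 0 L) y ∩ KA (M := M) B A D y)) =
        (mu M p).real (E A) * (mu M p).real (FB (M := M) B A (Fr 0 L) y ∩ KA (M := M) B A D y) := by
      unfold Measure.real mu
      rw [Pool.Agent.W45.PC.s_indep M.ι (fun _ => p) _ _ _ _ (hdE A hA) dFK hds
        (hmE A hA) ((hmF A).inter (hmK A)), ENNReal.toReal_mul]
    have i3 : (mu M p).real (FB (M := M) B A (Fr 0 L) y) * (mu M p).real (KA (M := M) B A D y) ≤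
        (mu M p).real (FB (M := M) B A (Fr 0 L) y ∩ KA (M := M) B A D y) := by
      have hA' : DepOn (FB (M := M) B A (Fr 0 L) y) (hInfin.toFinset : Set M.ι) := by
        rw [hInfin.coe_toFinset]; exact dep_mono (FB_dep B A (Fr 0 L) y) Set.sdiff_subset
      have hB' : DepOn (KA (M := M) B A D y) (hInfin.toFinset : Set M.ι) := by
        rw [hInfin.coe_toFinset]; exact dep_mono (KA_dep B A D y) Set.sdiff_subset
      exact Pool.Agent.W333.PC.s_harris M.ι (fun _ => p) hInfin.toFinset _ _ hA' hB'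
        (FB_inc B A (Fr 0 L) y) (KA_inc B A D y)
    rw [i1, i2, mul_assoc]
    apply mul_le_mul_of_nonneg_left _ measureReal_nonneg
    refine le_trans (mul_le_mul_of_nonneg_left ?_ measureReal_nonneg) i3
    exact measureReal_mono (Cn_sub_KA hN hDB (by exact_mod_cast hxA) (by exact_mod_cast h5))
      (measure_ne_top _ _)
  -- the sum
  have hsum1 : (mu M p).real (Ea M L x y) ≤
      ∑ A ∈ T, (mu M p).real (E A ∩ FB (M := M) B A (Fr 0 L) y) := by
    refine le_trans (measureReal_mono (s₂ := ⋃ A ∈ T, (E A ∩ FB (M := M) B A (Fr 0 L) y)) ?_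
      (measure_ne_top _ _)) (measureReal_biUnion_finset_le _ _)
    intro ω hω
    obtain ⟨A, hA, h1, h2⟩ := hEv ω hω
    simp only [mem_iUnion]
    exact ⟨A, hA, h1, h2⟩
  have hsum2 : ∑ A ∈ T, (mu M p).real (E A ∩ (FB (M := M) B A (Fr 0 L) y ∩ KA (M := M) B A D y)) ≤
      (mu M p).real (Ea M L x y ∩ Kt M L D x y) := by
    rw [← measureReal_biUnion_finset]
    · refine measureReal_mono ?_ (measure_ne_top _ _)
      intro ω hω
      simp only [mem_iUnion] at hω
      obtain ⟨A, hA, h1, h2, h3⟩ := hω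
      exact ⟨hEvB A hA ω h1 h2, hKt A hA ω h1 h3⟩
    · intro A hA A' hA' hne
      exact Disjoint.mono Set.inter_subset_left Set.inter_subset_left (hdisj A hA A' hA' hne)
    · intro A hA
      exact (hmE A hA).inter ((hmF A).inter (hmK A))
  calc (mu M p).real (Ea M L x y) * (mu M p).real (Cn M D x y)
      ≤ (∑ A ∈ T, (mu M p).real (E A ∩ FB (M := M) B A (Fr 0 L) y)) * (mu M p).real (Cn M D x y) :=
        mul_le_mul_of_nonneg_right hsum1 measureReal_nonneg
    _ = ∑ A ∈ T, (mu M p).real (E A ∩ FB (M := M) B A (Fr 0 L) y) * (mu M p).real (Cn M D x y) :=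
        Finset.sum_mul _ _ _
    _ ≤ ∑ A ∈ T, (mu M p).real (E A ∩ (FB (M := M) B A (Fr 0 L) y ∩ KA (M := M) B A D y)) :=
        Finset.sum_le_sum hpiece
    _ ≤ _ := hsum2

end

end Pool.Agent.Y70.OA
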